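import Pool.Agent.Helper62.PM.St5

/-!
# Project PM, module PA: a smooth convex version of `max 0 s`
-/

set_option autoImplicit false

open MeasureTheory Metric Set Filter Topology
open scoped RealInnerProductSpace ContDiff

namespace Pool.Agent.Helper53.PM

open Pool.Agent.Helper62.PM
open Pool.Agent.Helper62.Mink

private noncomputable def th (u : ℝ) : ℝ := Real.smoothTransition ((u + 1) / 2)

private theorem th_smooth : ContDiff ℝ ∞ th := by
  have h : ContDiff ℝ ∞ (fun u : ℝ => (u + 1) / 2) := by fun_prop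
  exact (Real.smoothTransition.contDiff (n := ⊤)).comp h

private theorem th_cont : Continuous th := th_smooth.continuous

private theorem th_mono : Monotone th := fun a b h => by
  apply Real.smoothTransition.monotone
  linarith

private theorem th_nonneg (u : ℝ) : 0 ≤ th u := Real.smoothTransition.nonneg _

private theorem th_le_one (u : ℝ) : th u ≤ 1 := Real.smoothTransition.le_one _

private theorem th_zero {u : ℝ} (h : u ≤ -1) : th u = 0 :=
  Real.smoothTransition.zero_of_nonpos (by linarith)

private theorem th_one {u : ℝ} (h : 1 ≤ u) : th u = 1 :=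
  Real.smoothTransition.one_of_one_le (by linarith)

private theorem th_sym (u : ℝ) : th u + th (-u) = 1 := by
  unfold th
  have e : (-u + 1) / 2 = 1 - (u + 1) / 2 := by ring
  rw [e]
  set x := (u + 1) / 2
  unfold Real.smoothTransition
  have h := (Real.smoothTransition.pos_denom x).ne'
  rw [sub_sub_cancel, add_comm (expNegInvGlue (1 - x)) (expNegInvGlue x), ← add_div, div_self h]

private noncomputable def Ff (s : ℝ) : ℝ := ∫ u in (-1 : ℝ)..s, th u

private theorem Ff_der (s : ℝ) : HasDerivAt Ff (th s) s :=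
  (th_cont.integral_hasStrictDerivAt (-1) s).hasDerivAt

private theorem Ff_deriv : deriv Ff = th := funext fun s => (Ff_der s).deriv

private theorem Ff_diff : Differentiable ℝ Ff := fun s => (Ff_der s).differentiableAt

private theorem Ff_smooth : ContDiff ℝ ∞ Ff := by
  rw [contDiff_infty_iff_deriv]
  refine ⟨Ff_diff, ?_⟩
  rw [Ff_deriv]
  exact th_smooth

private theorem Ff_zero {s : ℝ} (h : s ≤ -1) : Ff s = 0 := by
  unfold Ff
  rw [intervalIntegral.integral_congr (g := fun _ => (0 : ℝ))]
  · simp
  · intro u hu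
    rw [uIcc_of_ge h] at hu
    exact th_zero hu.2

private theorem Ff_one : Ff 1 = 1 := by
  have h1 : ∫ u in (-1 : ℝ)..1, th (-u) = ∫ u in (-1 : ℝ)..1, th u := by
    rw [intervalIntegral.integral_comp_neg]
    norm_num
  have h2 : (∫ u in (-1 : ℝ)..1, th u) + ∫ u in (-1 : ℝ)..1, th (-u) = 2 := by
    have hc : Continuous fun u : ℝ => th (-u) := th_cont.comp continuous_neg
    rw [← intervalIntegral.integral_add (th_cont.intervalIntegrable _ _)
      (hc.intervalIntegrable _ _)]
    simp only [th_sym]
    simp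
    norm_num
  rw [h1] at h2
  show ∫ u in (-1 : ℝ)..1, th u = 1
  linarith

private theorem Ff_id {s : ℝ} (h : 1 ≤ s) : Ff s = s := by
  have h1 : Ff s = Ff 1 + ∫ u in (1 : ℝ)..s, th u :=
    (intervalIntegral.integral_add_adjacent_intervals (th_cont.intervalIntegrable _ _)
      (th_cont.intervalIntegrable _ _)).symm
  have h2 : ∫ u in (1 : ℝ)..s, th u = s - 1 := by
    rw [intervalIntegral.integral_congr (g := fun _ => (1 : ℝ))]
    · simp
    · intro u hu
      rw [uIcc_of_le h] at hu
      exact th_one hu.1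
  rw [h1, h2, Ff_one]
  ring

private theorem Ff_mono : Monotone Ff :=
  monotone_of_deriv_nonneg Ff_diff fun s => by rw [Ff_deriv]; exact th_nonneg s

private theorem Ff_nonneg (s : ℝ) : 0 ≤ Ff s := by
  rw [← Ff_zero (min_le_right s (-1))]
  exact Ff_mono (min_le_left _ _)

private theorem Ff_lip : Antitone fun s => Ff s - s := by
  refine antitone_of_deriv_nonpos (Ff_diff.sub differentiable_id) fun s => ?_
  have h : HasDerivAt (fun s => Ff s - s) (th s - 1) s := (Ff_der s).sub (hasDerivAt_id s)
  rw [h.deriv]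
  have := th_le_one s
  linarith

private theorem Ff_star (l s : ℝ) (h0 : 0 ≤ l) (h1 : l ≤ 1) : l * Ff s ≤ Ff (l * s) := by
  rcases le_total s 0 with hs | hs
  · have a1 : l * Ff s ≤ 1 * Ff s := mul_le_mul_of_nonneg_right h1 (Ff_nonneg s)
    have a2 : s ≤ l * s := by nlinarith
    have a3 := Ff_mono a2
    linarith
  · have a1 : l * s ≤ s := by nlinarith
    have a2 : Ff s - s ≤ Ff (l * s) - l * s := Ff_lip a1
    have a3 : 0 ≤ Ff s - s := by
      have h2 : Ff (max s 1) - max s 1 ≤ Ff s - s := Ff_lip (le_max_left s 1)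
      rw [Ff_id (le_max_right s 1), sub_self] at h2
      exact h2
    nlinarith

private theorem th_der_zero {u : ℝ} (h : u < -1 ∨ 1 < u) : deriv th u = 0 := by
  rcases h with h | h
  · have e : th =ᶠ[𝓝 u] fun _ => (0 : ℝ) := by
      filter_upwards [Iio_mem_nhds h] with x hx
      exact th_zero (le_of_lt hx)
    rw [e.deriv_eq]
    simp
  · have e : th =ᶠ[𝓝 u] fun _ => (1 : ℝ) := by
      filter_upwards [Ioi_mem_nhds h] with x hx
      exact th_one (le_of_lt hx)
    rw [e.deriv_eq]
    simp

/-- PA -/
theorem hPA : StPA := by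
  have hcd : Continuous (deriv th) := th_smooth.continuous_deriv (by simp)
  obtain ⟨M, hM⟩ := isCompact_Icc.exists_bound_of_continuousOn (s := Icc (-1 : ℝ) 1)
    hcd.continuousOn
  refine ⟨Ff, ⟨Ff_smooth, ?_, Ff_mono, Ff_nonneg, fun s => Ff_zero, fun s => Ff_id, Ff_lip,
    Ff_star, M, fun s => ?_⟩⟩
  · refine Monotone.convexOn_univ_of_deriv Ff_diff ?_
    rw [Ff_deriv]
    exact th_mono
  · rw [Ff_deriv]
    have hM0 : 0 ≤ M := (norm_nonneg _).trans (hM 0 ⟨by norm_num, by norm_num⟩)
    by_cases hs : s ∈ Icc (-1 : ℝ) 1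
    · exact hM s hs
    · have h : s < -1 ∨ 1 < s := by
        by_contra hc
        push Not at hc
        exact hs hc
      rw [th_der_zero h, abs_zero]
      exact hM0

end Pool.Agent.Helper53.PM
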